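import Pool.Agent.P.MP_e3a7ef_co.MoD

open MeasureTheory

namespace Pool.Agent.Results.MP_e3a7ef_co.Moment

open Pool.Agent.P.MP_e3a7ef_co

/-- Every iterate of `L` on the sequence `W` is the moment sequence of a finite, non-zero,
absolutely continuous measure on a bounded interval of the half line, and is positive. -/
theorem result (k : ℕ) :
    ∃ σ : Measure ℝ, IsFiniteMeasure σ ∧ σ ≠ 0 ∧ σ.AbsolutelyContinuous volume ∧
      σ (Set.Icc (0 : ℝ) (256 ^ 2 ^ k))ᶜ = 0 ∧
      ∀ i : ℕ,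
        opL^[k] (fun n => flf (n + 2) ^ 2 - flf (n + 1) * flf (n + 3)) i = ∫ x, x ^ i ∂σ ∧
        0 < opL^[k] (fun n => flf (n + 2) ^ 2 - flf (n + 1) * flf (n + 3)) i := by
  obtain ⟨σ, h1, h2, h3, h4, h5⟩ := Mo.main k
  exact ⟨σ, h1, h2, h3, h4, fun i => ⟨h5 i, by rw [h5]; exact Mo.moment_pos h4 h3 h2 i⟩⟩

/-- The question as posed: `W` is infinitely log-convex, with strict inequalities. -/
theorem inf_log_convex (k i : ℕ) :
    0 < opL^[k] (fun n => flf (n + 2) ^ 2 - flf (n + 1) * flf (n + 3)) i := by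
  obtain ⟨σ, -, -, -, -, h⟩ := result k
  exact (h i).2

end Pool.Agent.Results.MP_e3a7ef_co.Moment
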